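import Mathlib
import Pool.Agent.Helper47.NI.Hom

/-!
# Theorem M: an element as a quotient of coprime forms
-/

set_option autoImplicit false

namespace Pool.Agent.Helper69.M

open MvPolynomial

variable {M E : Type} [Field M] [Field E] [Algebra M E]

/-- Homogenization with respect to `X 0`. -/
noncomputable def hz {n : ℕ} (D : ℕ) (P : MvPolynomial (Fin (n + 1)) M) :
    MvPolynomial (Fin (n + 1)) M :=
  ∑ i ∈ Finset.range (D + 1), X 0 ^ (D - i) * homogeneousComponent i P

theorem hz_hom {n : ℕ} (D : ℕ) (P : MvPolynomial (Fin (n + 1)) M) : (hz D P).IsHomogeneous D := by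
  refine IsHomogeneous.sum _ _ _ fun i hi => ?_
  rw [Finset.mem_range] at hi
  have h1 := (isHomogeneous_X_pow (R := M) (0 : Fin (n + 1)) (D - i)).mul
    (homogeneousComponent_isHomogeneous i P)
  have h2 : D - i + i = D := by omega
  rwa [h2] at h1

theorem aeval_hz {n : ℕ} (ξ : Fin (n + 1) → E) (h0 : ξ 0 = 1) (D : ℕ)
    (P : MvPolynomial (Fin (n + 1)) M) (hP : P.totalDegree ≤ D) :
    aeval ξ (hz D P) = aeval ξ P := by
  have h1 : aeval ξ (hz D P) = aeval ξ (∑ i ∈ Finset.range (D + 1), homogeneousComponent i P) := by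
    rw [hz, map_sum, map_sum]
    refine Finset.sum_congr rfl fun i _ => ?_
    rw [map_mul, map_pow, aeval_X, h0, one_pow, one_mul]
  rw [h1]
  congr 1
  conv_rhs => rw [← sum_homogeneousComponent P]
  symm
  refine Finset.sum_subset (fun i hi => ?_) fun i _ hi => ?_
  · rw [Finset.mem_range] at hi ⊢
    omega
  · rw [Finset.mem_range] at hi
    exact homogeneousComponent_eq_zero _ _ (by omega)

theorem aeval_smul_form {n : ℕ} (ξ : Fin n → E) (u : E) {δ : ℕ} {p : MvPolynomial (Fin n) M}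
    (hp : p.IsHomogeneous δ) : aeval (fun i => u * ξ i) p = u ^ δ * aeval ξ p := by
  rw [aeval_def, aeval_def, eval₂_eq, eval₂_eq, Finset.mul_sum]
  refine Finset.sum_congr rfl fun m hm => ?_
  have hn := hp.degree_eq_sum_deg_support hm
  simp only [mul_pow]
  rw [Finset.prod_mul_distrib, Finset.prod_pow_eq_pow_sum, ← hn]
  ring

/-- An element of `M(ξ)` is a quotient of two coprime forms of the same degree. -/
theorem exists_forms [Infinite M] {n : ℕ} (ξ : Fin (n + 1) → E) (h0 : ξ 0 = 1) (φ : E)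
    (hφ : φ ∈ IntermediateField.adjoin M (Set.range ξ)) (hφ0 : φ ≠ 0) :
    ∃ (δ : ℕ) (p q : MvPolynomial (Fin (n + 1)) M), p.IsHomogeneous δ ∧ q.IsHomogeneous δ ∧
      IsRelPrime p q ∧ aeval ξ q ≠ 0 ∧ φ * aeval ξ q = aeval ξ p := by
  obtain ⟨P, Q, hPQ⟩ := (IntermediateField.mem_adjoin_range_iff M ξ φ).mp hφ
  have hQ : aeval ξ Q ≠ 0 := by
    intro h
    rw [h, div_zero] at hPQ
    exact hφ0 hPQ
  have hP : aeval ξ P ≠ 0 := by
    intro h
    rw [h, zero_div] at hPQ
    exact hφ0 hPQ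
  obtain ⟨D, hD1, hD2⟩ : ∃ D, P.totalDegree ≤ D ∧ Q.totalDegree ≤ D :=
    ⟨max P.totalDegree Q.totalDegree, le_max_left _ _, le_max_right _ _⟩
  have e1 := aeval_hz ξ h0 D P hD1
  have e2 := aeval_hz ξ h0 D Q hD2
  have n1 : hz D P ≠ 0 := by
    intro h
    rw [h, map_zero] at e1
    exact hP e1.symm
  have n2 : hz D Q ≠ 0 := by
    intro h
    rw [h, map_zero] at e2
    exact hQ e2.symm
  obtain ⟨p, q, c, hrel, h1, h2⟩ := UniqueFactorizationMonoid.exists_reduced_factors _ n1 (hz D Q)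
  have g1 : (c * p).IsHomogeneous D := by rw [h1]; exact hz_hom D P
  have g2 : (c * q).IsHomogeneous D := by rw [h2]; exact hz_hom D Q
  obtain ⟨a, b, hca, hpb, hab⟩ := Pool.Agent.Helper47.NI.hom_factor g1 (by rw [h1]; exact n1)
  obtain ⟨a', b', hca', hqb, hab'⟩ := Pool.Agent.Helper47.NI.hom_factor g2 (by rw [h2]; exact n2)
  have hc0 : c ≠ 0 := by
    rintro rfl
    rw [zero_mul] at h1
    exact n1 h1.symm
  have haa : a = a' := hca.inj_right hca' hc0
  have hbb : b = b' := by omega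
  subst hbb
  refine ⟨b, p, q, hpb, hqb, hrel, ?_, ?_⟩
  · intro h
    rw [← h2, map_mul, h, mul_zero] at e2
    exact hQ e2.symm
  · have hcne : aeval ξ c ≠ 0 := by
      intro h
      rw [← h2, map_mul, h, zero_mul] at e2
      exact hQ e2.symm
    rw [← h1, map_mul] at e1
    rw [← h2, map_mul] at e2
    have h3 : φ * aeval ξ Q = aeval ξ P := by
      rw [hPQ, div_mul_cancel₀ _ hQ]
    rw [← e1, ← e2] at h3
    apply mul_left_cancel₀ hcne
    rw [← h3]
    ring

end Pool.Agent.Helper69.M
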