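import Mathlib

/-!
# Theorem M: a count of transcendence degrees
-/

set_option autoImplicit false

namespace Pool.Agent.Helper69.M

open Set AlgebraicIndependent

variable {F Ω : Type} [Field F] [Field Ω] [Algebra F Ω]

theorem eRk_range_le {n : ℕ} (z : Fin (n + 1) → Ω)
    (hz : ∀ i, ¬ AlgebraicIndependent F (fun j : {j : Fin (n + 1) // j ≠ i} => z j)) :
    (matroid F Ω).eRk (range z) ≤ (n : ℕ∞) - 1 := by
  rw [Matroid.eRk_le_iff]
  intro B hB hInd
  by_contra hc
  rw [not_le] at hc
  have hfin : B.Finite := (finite_range z).subset hB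
  have hBn : n ≤ B.ncard := by
    have h1 : B.encard = (B.ncard : ℕ∞) := (hfin.cast_ncard_eq).symm
    rw [h1] at hc
    by_contra h2
    have h3 : (B.ncard : ℕ∞) ≤ (n : ℕ∞) - 1 := by
      have : B.ncard ≤ n - 1 := by omega
      calc (B.ncard : ℕ∞) ≤ ((n - 1 : ℕ) : ℕ∞) := by exact_mod_cast this
        _ = (n : ℕ∞) - 1 := by push_cast; rfl
    exact absurd hc (not_lt.mpr h3)
  have hch : ∀ b : B, ∃ i, z i = b := fun b => hB b.2
  choose f hf using hch
  have hfinj : Function.Injective f := by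
    intro b b' h
    apply Subtype.ext
    rw [← hf b, ← hf b', h]
  have hcard : n ≤ (range f).ncard := by
    have h1 : (range f).ncard = Nat.card B := by
      rw [← image_univ, ncard_image_of_injective _ hfinj, ncard_univ]
    rw [h1]
    exact hBn
  have hex : ∃ i : Fin (n + 1), ∀ j, j ≠ i → j ∈ range f := by
    by_contra hno
    push Not at hno
    obtain ⟨j0, -, hj0⟩ := hno 0
    obtain ⟨j1, hj1, hj1'⟩ := hno j0
    have h2 : range f ⊆ ({j0, j1} : Set (Fin (n + 1)))ᶜ := by
      rintro _ ⟨b, rfl⟩ hb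
      rcases hb with hb | hb
      · exact hj0 ⟨b, hb⟩
      · exact hj1' ⟨b, hb⟩
    have h3 := ncard_le_ncard h2 (toFinite _)
    have h4 : ({j0, j1} : Set (Fin (n + 1))).ncard = 2 := ncard_pair (Ne.symm hj1)
    have h5 := ncard_add_ncard_compl ({j0, j1} : Set (Fin (n + 1)))
    rw [h4, Nat.card_eq_fintype_card, Fintype.card_fin] at h5
    omega
  obtain ⟨i, hi⟩ := hex
  apply hz i
  have hi' : ∀ j : {j : Fin (n + 1) // j ≠ i}, ∃ b : B, f b = j := fun j => hi j j.2
  choose g hg using hi'
  have hginj : Function.Injective g := by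
    intro j j' h
    apply Subtype.ext
    rw [← hg j, ← hg j', h]
  have h6 : AlgebraicIndependent F (fun b : B => (b : Ω)) := hInd
  have h7 := h6.comp g hginj
  convert h7 using 1
  funext j
  simp only [Function.comp]
  rw [← hf (g j), hg j]

theorem count_le {n m a : ℕ} (z : Fin (n + 2) → Ω)
    (hz : ∀ i, ¬ AlgebraicIndependent F (fun j : {j : Fin (n + 2) // j ≠ i} => z j))
    (y : Fin m → Ω) (w : Ω) (hw : w ∈ range z)
    (hind : AlgebraicIndependent F (Sum.elim (fun _ : Unit => w) y))
    (I : Set Ω) (hI : I.encard ≤ a)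
    (hcl : ∀ i, IsAlgebraic (Algebra.adjoin F (range z ∪ I)) (y i)) : m + 1 ≤ n + a := by
  have h1 : (matroid F Ω).Indep (range (Sum.elim (fun _ : Unit => w) y)) :=
    matroid_indep_iff.mpr hind.to_subtype_range
  have h2 : (range (Sum.elim (fun _ : Unit => w) y)) ⊆
      (matroid F Ω).closure (range z ∪ I) := by
    rintro _ ⟨o, rfl⟩
    rcases o with o | i
    · exact (matroid F Ω).subset_closure _ (by simp) (Or.inl hw)
    · rw [matroid_closure_eq]
      exact hcl i
  have h3 := (matroid F Ω).eRk_mono h2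
  rw [Matroid.eRk_closure_eq, h1.eRk_eq_encard] at h3
  have h4 : (range (Sum.elim (fun _ : Unit => w) y)).encard = ((m + 1 : ℕ) : ℕ∞) := by
    rw [← image_univ, hind.injective.encard_image, encard_univ]
    simp [add_comm]
  rw [h4] at h3
  have h5 := (matroid F Ω).eRk_union_le_eRk_add_eRk (range z) I
  have h6 := eRk_range_le z hz
  have h7 : (matroid F Ω).eRk I ≤ a := ((matroid F Ω).eRk_le_encard I).trans hI
  have h8 : ((m + 1 : ℕ) : ℕ∞) ≤ ((n + a : ℕ) : ℕ∞) := by
    refine h3.trans (h5.trans ?_)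
    refine (add_le_add h6 h7).trans ?_
    push_cast
    gcongr
    simp
  exact_mod_cast h8

theorem count_le' {s n m a : ℕ} (hs : s = n + 2) (z : Fin s → Ω)
    (hz : ∀ i, ¬ AlgebraicIndependent F (fun j : {j : Fin s // j ≠ i} => z j))
    (y : Fin m → Ω) (w : Ω) (hw : w ∈ range z)
    (hind : AlgebraicIndependent F (Sum.elim (fun _ : Unit => w) y))
    (I : Set Ω) (hI : I.encard ≤ a)
    (hcl : ∀ i, IsAlgebraic (Algebra.adjoin F (range z ∪ I)) (y i)) : m + 1 ≤ n + a := by
  subst hs
  exact count_le z hz y w hw hind I hI hcl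

/-- Algebraic elements under a map of fields. -/
theorem alg_transfer {R R' A L : Type} [Field R] [Field R'] (g : R →+* R') [CommRing A]
    [Algebra A R] (hA : Function.Injective (algebraMap A R)) [Field L] [Algebra L R']
    (hmem : ∀ a : A, ∃ b : L, algebraMap L R' b = g (algebraMap A R a)) (t : R)
    (ht : IsAlgebraic A t) : IsAlgebraic L (g t) := by
  obtain ⟨P, hP0, hP⟩ := ht
  have h1 : (P.map (g.comp (algebraMap A R))) ∈ Polynomial.lifts (algebraMap L R') := by
    rw [Polynomial.lifts_iff_coeff_lifts]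
    intro n
    rw [Polynomial.coeff_map]
    obtain ⟨b, hb⟩ := hmem (P.coeff n)
    exact ⟨b, hb⟩
  obtain ⟨Q, hQ⟩ := (Polynomial.mem_lifts _).mp h1
  refine ⟨Q, ?_, ?_⟩
  · rintro rfl
    rw [Polynomial.map_zero] at hQ
    have hinj : Function.Injective (g.comp (algebraMap A R)) := by
      rw [RingHom.coe_comp]
      exact g.injective.comp hA
    exact hP0 ((Polynomial.map_eq_zero_iff hinj).mp hQ.symm)
  · rw [Polynomial.aeval_def, ← Polynomial.eval_map, hQ, Polynomial.eval_map,
      ← Polynomial.hom_eval₂, ← Polynomial.aeval_def, hP, map_zero]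

end Pool.Agent.Helper69.M
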