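import Mathlib
import Pool.Agent.Helper47.M.Defs
import Pool.Agent.Helper69.M.Trd
import Pool.Agent.Helper69.M.Forms

/-!
# Theorem M: abstract lemmas for `inter_le`
-/

set_option autoImplicit false

namespace Pool.Agent.Helper69.M

open MvPolynomial Pool.Agent.Helper47.M

/-- `dep_of_coprime`. -/
def CopP : Prop :=
  ∀ (M Ω : Type) [Field M] [Field Ω] [Algebra M Ω] (n : ℕ) (p q : MvPolynomial (Fin n) M),
    IsRelPrime p q → ∀ z : Fin n → Ω, aeval z p = 0 → aeval z q = 0 → ∀ i : Fin n,
    ¬ AlgebraicIndependent M (fun j : {j : Fin n // j ≠ i} => z j)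

section places

variable {K E : Type} [Field K] [Field E] [Algebra K E] {R : Type} [Field R] [Algebra K R]

theorem red_coe {B : IntermediateField K E} (v : Place B R) (b : B) :
    v.red (b : E) = v.res b := by
  unfold Place.red
  rw [dif_pos (v.inc b b.2)]
  rfl

theorem red_of_mem {B : IntermediateField K E} (v : Place B R) {y : E} (h : y ∈ v.O) :
    v.red y = v.pi ⟨y, h⟩ := by
  unfold Place.red
  rw [dif_pos h]

theorem res_algebraMap {B : IntermediateField K E} (v : Place B R) (a : K) :
    v.res (algebraMap K B a) = algebraMap K R a :=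
  v.alg a

/-- The residue map on a smaller field. -/
noncomputable def resOn {B M : IntermediateField K E} (v : Place B R) (h : M ≤ B) : M →+* R :=
  v.res.comp (IntermediateField.inclusion h).toRingHom

theorem resOn_apply {B M : IntermediateField K E} (v : Place B R) (h : M ≤ B) (b : M) :
    resOn v h b = v.res (IntermediateField.inclusion h b) := rfl

theorem resOn_coe {B M : IntermediateField K E} (v : Place B R) (h : M ≤ B) (b : M) :
    resOn v h b = v.red (b : E) := by
  rw [resOn_apply, ← red_coe, IntermediateField.coe_inclusion]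

theorem resOn_algebraMap {B M : IntermediateField K E} (v : Place B R) (h : M ≤ B) (a : K) :
    resOn v h (algebraMap K _ a) = algebraMap K R a := by
  rw [resOn_apply, AlgHom.commutes]
  exact res_algebraMap v a

/-- The residue of the value of a polynomial. -/
theorem pi_eval {B M : IntermediateField K E} (v : Place B R) (h : M ≤ B) {s : ℕ}
    (y : Fin s → E) (hy : ∀ i, y i ∈ v.O) (p : MvPolynomial (Fin s) M) :
    ∃ hp : aeval y p ∈ v.O, v.pi ⟨aeval y p, hp⟩ = eval₂ (resOn v h) (fun i => v.red (y i)) p := by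
  set ι : M →+* v.O :=
    { toFun := fun m => ⟨m, v.inc m (h m.2)⟩
      map_one' := rfl
      map_mul' := fun _ _ => rfl
      map_zero' := rfl
      map_add' := fun _ _ => rfl } with hι
  have h1 : (v.O.subtype (eval₂ ι (fun i => ⟨y i, hy i⟩) p) : E) = aeval y p := by
    rw [MvPolynomial.hom_eval₂, aeval_def]
    rfl
  have h2 : aeval y p ∈ v.O := by
    rw [← h1]
    exact (eval₂ ι (fun i => ⟨y i, hy i⟩) p).2
  refine ⟨h2, ?_⟩
  have h3 : (⟨aeval y p, h2⟩ : v.O) = eval₂ ι (fun i => ⟨y i, hy i⟩) p := Subtype.ext h1.symm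
  rw [h3, MvPolynomial.hom_eval₂]
  have h4 : v.pi.comp ι = resOn v h := by
    ext m
    rw [resOn_coe, red_of_mem v (v.inc m (h m.2))]
    rfl
  have h5 : (fun i => v.pi (⟨y i, hy i⟩ : v.O)) = fun i => v.red (y i) := by
    funext i
    rw [red_of_mem v (hy i)]
  rw [h4, h5]

/-- If the numerator of `φ ∈ B` is zero at the place then the denominator is zero too. -/
theorem both_zero {B M : IntermediateField K E} (v : Place B R) (h : M ≤ B) {s δ : ℕ}
    (ξ : Fin s → E) (u : E) (hO : ∀ i, u * ξ i ∈ v.O) (p q : MvPolynomial (Fin s) M)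
    (hp : p.IsHomogeneous δ) (hq : q.IsHomogeneous δ) (φ : E) (hφ : φ ∈ B) (hφ0 : φ ≠ 0)
    (he : φ * aeval ξ q = aeval ξ p)
    (h0 : eval₂ (resOn v h) (fun i => v.red (u * ξ i)) p = 0) :
    eval₂ (resOn v h) (fun i => v.red (u * ξ i)) q = 0 := by
  obtain ⟨h1, h2⟩ := pi_eval v h (fun i => u * ξ i) hO p
  obtain ⟨h3, h4⟩ := pi_eval v h (fun i => u * ξ i) hO q
  have h5 : φ * aeval (fun i => u * ξ i) q = aeval (fun i => u * ξ i) p := by
    rw [aeval_smul_form ξ u hp, aeval_smul_form ξ u hq, ← he]
    ring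
  have h6 : (⟨φ, v.inc φ hφ⟩ : v.O) * ⟨_, h3⟩ = ⟨_, h1⟩ := Subtype.ext h5
  have h7 := congrArg v.pi h6
  rw [map_mul, h2, h4, h0] at h7
  have h8 : v.pi ⟨φ, v.inc φ hφ⟩ = v.res ⟨φ, hφ⟩ := rfl
  rw [h8] at h7
  rcases mul_eq_zero.mp h7 with h9 | h9
  · exfalso
    have h10 := (map_eq_zero v.res).mp h9
    exact hφ0 (congrArg Subtype.val h10)
  · exact h9

end places

section count

variable {F R : Type} [Field F] [Field R] [Algebra F R]

theorem no_common (hcop : CopP) {s n m a δ : ℕ} (hs : s = n + 2)
    (p q : MvPolynomial (Fin s) F) (hrel : IsRelPrime p q) (hp : p.IsHomogeneous δ)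
    (hq : q.IsHomogeneous δ) (z : Fin s → R) (hz1 : ∃ i, z i = 1) (hpz : aeval z p = 0)
    (hqz : aeval z q = 0) (y : Fin m → R) (hy : AlgebraicIndependent F y) (I : Set R)
    (hI : I.encard ≤ a)
    (hcl : ∀ i, IsAlgebraic (IntermediateField.adjoin F (Set.range z ∪ I)) (y i)) :
    m + 1 ≤ n + a := by
  obtain ⟨i1, hi1⟩ := hz1
  set R' := FractionRing (Polynomial R) with hR'
  set τ : R' := algebraMap (Polynomial R) R' Polynomial.X with hτ
  have hτ0 : τ ≠ 0 := by
    intro h
    rw [hτ, map_eq_zero_iff _ (IsFractionRing.injective (Polynomial R) R')] at h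
    exact Polynomial.X_ne_zero h
  have hτt : Transcendental R τ := by
    rw [hτ]
    exact (transcendental_algebraMap_iff (IsFractionRing.injective (Polynomial R) R')).mpr
      (Polynomial.transcendental_X R)
  set g : R →+* R' := algebraMap R R' with hg
  set z' : Fin s → R' := fun i => τ * g (z i) with hz'
  have hgz : ∀ P : MvPolynomial (Fin s) F, aeval (fun i => g (z i)) P = g (aeval z P) := by
    intro P
    exact MvPolynomial.aeval_algebraMap_apply R' z P
  have hp' : aeval z' p = 0 := by
    rw [hz', aeval_smul_form (fun i => g (z i)) τ hp, hgz, hpz, map_zero, mul_zero]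
  have hq' : aeval z' q = 0 := by
    rw [hz', aeval_smul_form (fun i => g (z i)) τ hq, hgz, hqz, map_zero, mul_zero]
  have hdep := hcop F R' s p q hrel z' hp' hq'
  have hw : τ ∈ Set.range z' := ⟨i1, by simp only [hz', hi1, map_one, mul_one]⟩
  have hind : AlgebraicIndependent F (Sum.elim (fun _ : Unit => τ) (algebraMap R R' ∘ y)) := by
    refine hy.sumElim_comp ?_
    rw [algebraicIndependent_unique_type_iff]
    exact hτt
  refine count_le' hs z' hdep (fun i => g (y i)) τ hw hind (g '' I) ?_ ?_
  · exact (Set.encard_image_le g I).trans hI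
  · intro i
    rw [← IntermediateField.isAlgebraic_adjoin_iff]
    set L := IntermediateField.adjoin F (Set.range z' ∪ g '' I) with hL
    refine alg_transfer g (Subtype.val_injective) ?_ (y i) (hcl i)
    have hmemL : IntermediateField.adjoin F (Set.range z ∪ I) ≤
        L.comap (IsScalarTower.toAlgHom F R R') := by
      rw [IntermediateField.adjoin_le_iff]
      rintro t (⟨i', rfl⟩ | ht)
      · have h1 : z' i' ∈ L := IntermediateField.subset_adjoin _ _ (Or.inl ⟨i', rfl⟩)
        have h2 : τ ∈ L := IntermediateField.subset_adjoin _ _ (Or.inl hw)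
        have h3 : g (z i') = z' i' / τ := by
          rw [eq_div_iff hτ0, mul_comm]
        change g (z i') ∈ L
        rw [h3]
        exact div_mem h1 h2
      · change g t ∈ L
        exact IntermediateField.subset_adjoin _ _ (Or.inr ⟨t, ht, rfl⟩)
    intro a'
    exact ⟨⟨_, hmemL a'.2⟩, rfl⟩

end count

end Pool.Agent.Helper69.M
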