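import Mathlib
import Pool.Agent.Helper47.M.Defs
import Pool.Agent.Helper69.M.Abs

/-!
# Theorem M: common functions of two projections (`inter_le`)

The pieces `exists_place`, `genPt_red`, `alg_of_nice`, `dep_of_nice`, `dep_of_coprime` are
hypotheses here.
-/

set_option autoImplicit false

namespace Pool.Agent.Helper69.M

open MvPolynomial Pool.Agent.Helper47.M

variable {k l : ℕ} {N : Fin k → ℕ} {d : Fin l → Fin k → ℕ}

/-- `exists_place`. -/
def PlaceP (K E : Type) [Field K] [Field E] [Algebra K E] : Prop :=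
  ∀ (B : IntermediateField K E) (n : ℕ) (ξ : Fin n → E),
    (∃ i j, ξ j ≠ 0 ∧ Transcendental B (ξ i / ξ j)) → ∀ (p : MvPolynomial (Fin n) B) (δ : ℕ),
    0 < δ → p.IsHomogeneous δ → ∃ (R : Type) (_ : Field R) (_ : Algebra K R) (v : Place B R)
      (u : E), u ≠ 0 ∧ (∀ i, u * ξ i ∈ v.O) ∧ (∃ i, u * ξ i = 1) ∧
      eval₂ v.res (fun i => v.red (u * ξ i)) p = 0

/-- `genPt_red`. -/
def RedP {K E : Type} [Field K] [Field E] [Algebra K E] (c : Tx N d → K) (x : Pt N E) : Prop :=
  ∀ (r : Fin k) (R : Type) [Field R] [Algebra K R] (v : Place (Bf K x {r}) R) (u : E), u ≠ 0 →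
    (∀ i, u * x r i ∈ v.O) → (∃ i, u * x r i = 1) →
    GenPt K c r (Function.update (fun j i => v.red (x j i)) r fun i => v.red (u * x r i))

/-- `alg_of_nice`. -/
def AlgP (K : Type) [Field K] (c : Tx N d → K) : Prop :=
  ∀ (Ω : Type) [Field Ω] [Algebra K Ω] (x : Pt N Ω),
    (∀ i, Fm (fun e => algebraMap K Ω (c e)) x i = 0) →
    Nice (fun e => algebraMap K Ω (c e)) x → ∀ j : Fin k, N j = l → x j 0 = 1 →
    ∀ i, IsAlgebraic (Bf K x {j}) (x j i)

/-- `dep_of_nice`. -/
def DepP (K : Type) [Field K] (c : Tx N d → K) : Prop :=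
  ∀ (Ω : Type) [Field Ω] [Algebra K Ω] (x : Pt N Ω),
    (∀ i, Fm (fun e => algebraMap K Ω (c e)) x i = 0) →
    Nice (fun e => algebraMap K Ω (c e)) x → ∀ j : Fin k, N j = l + 1 → x j 0 = 1 →
    ∀ i i', ¬ AlgebraicIndependent (Bf K x {j}) ![x j i, x j i']

section basic

variable {K E : Type} [Field K] [Field E] [Algebra K E]

theorem Bf_anti (x : Pt N E) {J J' : Set (Fin k)} (h : J ⊆ J') : Bf K x J' ≤ Bf K x J := by
  refine IntermediateField.adjoin.mono K _ _ ?_
  rintro y ⟨j, hj, e, rfl⟩
  exact ⟨j, fun h' => hj (h h'), e, rfl⟩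

theorem Bf_le (x : Pt N E) (r j : Fin k) : Bf K x {r, j} ≤ Bf K x {r} :=
  Bf_anti x (Set.singleton_subset_iff.mpr (Set.mem_insert r {j}))

theorem mem_Bf (x : Pt N E) {J : Set (Fin k)} {j : Fin k} (hj : j ∉ J) (e : Fin (N j + 1)) :
    x j e ∈ Bf K x J := IntermediateField.subset_adjoin _ _ ⟨j, hj, e, rfl⟩

theorem mem_Bf2 (x : Pt N E) {r j j' : Fin k} (h1 : j' ≠ r) (h2 : j' ≠ j) (e : Fin (N j' + 1)) :
    x j' e ∈ Bf K x {r, j} := by
  refine mem_Bf x ?_ e
  rintro (h3 | h3)
  · exact h1 h3
  · exact h2 h3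

theorem mem_adjoin_of_mem_Bf (x : Pt N E) (r j : Fin k) (φ : E) (h : φ ∈ Bf K x {j}) :
    φ ∈ IntermediateField.adjoin (Bf K x {r, j}) (Set.range (x r)) := by
  set L := IntermediateField.adjoin (Bf K x {r, j}) (Set.range (x r)) with hL
  have h1 : Bf K x {j} ≤ L.restrictScalars K := by
    unfold Bf
    rw [IntermediateField.adjoin_le_iff]
    rintro y ⟨j', hj', e, rfl⟩
    by_cases hr : j' = r
    · subst hr
      have : x j' e ∈ L := IntermediateField.subset_adjoin _ _ ⟨e, rfl⟩
      exact this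
    · have h2 : x j' e ∈ Bf K x {r, j} := mem_Bf2 x hr hj' e
      have h3 := L.algebraMap_mem ⟨_, h2⟩
      exact h3
  have h4 := h1 h
  rwa [IntermediateField.mem_restrictScalars] at h4

end basic

section residue

variable {K E : Type} [Field K] [Field E] [Algebra K E] {R : Type} [Field R] [Algebra K R]

/-- The point of the residue field. -/
noncomputable def rp (x : Pt N E) (r : Fin k) (v : Place (Bf K x {r}) R) (u : E) : Pt N R :=
  Function.update (fun j i => v.red (x j i)) r fun i => v.red (u * x r i)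

theorem rp_r (x : Pt N E) (r : Fin k) (v : Place (Bf K x {r}) R) (u : E) (i : Fin (N r + 1)) :
    rp x r v u r i = v.red (u * x r i) := by
  unfold rp
  rw [Function.update_self]

theorem rp_ne (x : Pt N E) (r : Fin k) (v : Place (Bf K x {r}) R) (u : E) {j : Fin k}
    (hj : j ≠ r) (i : Fin (N j + 1)) : rp x r v u j i = v.red (x j i) := by
  unfold rp
  rw [Function.update_of_ne hj]

/-- The coordinates outside `{r, j}` at the residue point are residues of elements of
`Bf K x {r, j}`. -/
theorem rp_eq (x : Pt N E) (r j : Fin k) (v : Place (Bf K x {r}) R) (u : E) {j' : Fin k}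
    (h1 : j' ≠ r) (h2 : j' ≠ j) (i : Fin (N j' + 1)) :
    rp x r v u j' i = resOn v (Bf_le x r j) ⟨x j' i, mem_Bf2 x h1 h2 i⟩ := by
  rw [rp_ne x r v u h1, resOn_coe]

end residue

section indep

variable {K R : Type} [Field K] [Field R] [Algebra K R]

theorem indep_of_mem {M ι : Type} [Field M] (ρ : M →+* R) (L : IntermediateField K R)
    (hmem : ∀ m, ρ m ∈ L) (w : ι → R) (hw : AlgebraicIndependent L w) :
    @AlgebraicIndependent ι M R w _ _ ρ.toAlgebra := by
  let _ : Algebra M R := ρ.toAlgebra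
  let _ : Algebra M L := (ρ.codRestrict L.toSubfield hmem).toAlgebra
  have : IsScalarTower M L R := IsScalarTower.of_algebraMap_eq fun _ => rfl
  exact hw.restrictScalars (algebraMap M L).injective

/-- The coordinates of the factor `j` are independent over the other ones. -/
theorem indep_j (c : Tx N d → K) {r j : Fin k} (hj : j ≠ r) (X : Pt N R) (hX : GenPt K c r X) :
    AlgebraicIndependent (Bf K X {r, j}) fun i : Fin (N j) => X j i.succ := by
  set w : {q : Vr N // q.1 ≠ r} → R := fun q => X q.1.1 q.1.2.succ with hw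
  set s : Set {q : Vr N // q.1 ≠ r} := {q | q.1.1 ≠ j} with hs
  have h1 := ((AlgebraicIndependent.iff_adjoin_image s).mp hX.ind).2
  set f : Fin (N j) → (sᶜ : Set {q : Vr N // q.1 ≠ r}) := fun i =>
    ⟨⟨⟨j, i⟩, hj⟩, by simp [hs]⟩ with hf
  have hfi : Function.Injective f := by
    intro i i' h
    have h2 := congrArg (fun q => q.1.1) h
    simp only [hf, Sigma.mk.injEq, heq_eq_eq, true_and] at h2
    exact h2
  have h3 := AlgebraicIndependent.comp h1 f hfi
  have h4 : AlgebraicIndependent (IntermediateField.adjoin K (w '' s))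
      fun i : Fin (N j) => X j i.succ := by
    rw [IntermediateField.algebraicIndependent_adjoin_iff]
    exact h3
  have h5 : Bf K X {r, j} ≤ IntermediateField.adjoin K (w '' s) := by
    unfold Bf
    rw [IntermediateField.adjoin_le_iff]
    rintro y ⟨j', hj', e, rfl⟩
    have h6 : j' ≠ r := fun h => hj' (Or.inl h)
    have h7 : j' ≠ j := fun h => hj' (Or.inr h)
    refine Fin.cases ?_ (fun e' => ?_) e
    · change X j' 0 ∈ IntermediateField.adjoin K (w '' s)
      rw [hX.one j' h6]
      exact one_mem _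
    · exact IntermediateField.subset_adjoin _ _ ⟨⟨⟨j', e'⟩, h6⟩, h7, rfl⟩
  exact indep_of_mem (algebraMap (Bf K X {r, j}) R) _ (fun m => h5 m.2) _ h4

end indep

section main

variable {K E : Type} [Field K] [Field E] [Algebra K E] {R : Type} [Field R] [Algebra K R]

theorem resOn_mem (x : Pt N E) (r j : Fin k) (v : Place (Bf K x {r}) R) (u : E)
    (m : Bf K x {r, j}) : resOn v (Bf_le x r j) m ∈ Bf K (rp x r v u) {r, j} := by
  have h : ∀ (y : E) (hy : y ∈ Bf K x {r, j}),
      resOn v (Bf_le x r j) ⟨y, hy⟩ ∈ Bf K (rp x r v u) {r, j} := by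
    intro y hy
    refine IntermediateField.adjoin_induction K
      (p := fun y hy => resOn v (Bf_le x r j) ⟨y, hy⟩ ∈ Bf K (rp x r v u) {r, j})
      ?_ ?_ ?_ ?_ ?_ hy
    · rintro y ⟨j', hj', e, rfl⟩
      have h6 : j' ≠ r := fun h => hj' (Or.inl h)
      have h7 : j' ≠ j := fun h => hj' (Or.inr h)
      rw [← rp_eq x r j v u h6 h7 e]
      exact mem_Bf2 _ h6 h7 e
    · intro a
      have h1 := resOn_algebraMap v (Bf_le x r j) a
      have h2 : (⟨algebraMap K E a, (Bf K x {r, j}).algebraMap_mem a⟩ : Bf K x {r, j}) =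
          algebraMap K _ a := rfl
      rw [h2, h1]
      exact (Bf K (rp x r v u) {r, j}).algebraMap_mem a
    · intro y z hy hz h1 h2
      have h3 := map_add (resOn v (Bf_le x r j)) ⟨y, hy⟩ ⟨z, hz⟩
      have h4 := add_mem h1 h2
      rw [← h3] at h4
      exact h4
    · intro y hy h1
      have h3 := map_inv₀ (resOn v (Bf_le x r j)) ⟨y, hy⟩
      have h4 := inv_mem h1
      rw [← h3] at h4
      exact h4
    · intro y z hy hz h1 h2
      have h3 := map_mul (resOn v (Bf_le x r j)) ⟨y, hy⟩ ⟨z, hz⟩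
      have h4 := mul_mem h1 h2
      rw [← h3] at h4
      exact h4
  exact h m m.2

/-- The coordinates other than those of the factor `j`, over the smaller field. -/
theorem Bf_le_adjoin (x : Pt N E) (r j : Fin k) (v : Place (Bf K x {r}) R) (u : E)
    [Algebra (Bf K x {r, j}) R] (hρ : algebraMap (Bf K x {r, j}) R = resOn v (Bf_le x r j))
    (I : Set R) (b : R) (hb : b ∈ Bf K (rp x r v u) {j}) :
    b ∈ IntermediateField.adjoin (Bf K x {r, j})
      ((Set.range fun i => v.red (u * x r i)) ∪ I) := by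
  have : IsScalarTower K (Bf K x {r, j}) R := by
    refine IsScalarTower.of_algebraMap_eq fun a => ?_
    rw [hρ, resOn_algebraMap]
  set L := IntermediateField.adjoin (Bf K x {r, j})
      ((Set.range fun i => v.red (u * x r i)) ∪ I) with hL
  have h1 : Bf K (rp x r v u) {j} ≤ L.restrictScalars K := by
    unfold Bf
    rw [IntermediateField.adjoin_le_iff]
    rintro y ⟨j', hj', e, rfl⟩
    by_cases hr : j' = r
    · subst hr
      have h2 : rp x j' v u j' e ∈ L := by
        rw [rp_r]
        exact IntermediateField.subset_adjoin _ _ (Or.inl ⟨e, rfl⟩)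
      exact h2
    · have h2 : rp x r v u j' e ∈ L := by
        rw [rp_eq x r j v u hr hj' e, ← hρ]
        exact L.algebraMap_mem _
      exact h2
  have h4 := h1 hb
  rwa [IntermediateField.mem_restrictScalars] at h4

/-- An element algebraic over `B(a)` if it is not independent of the transcendental `a`. -/
theorem alg_of_pair {B : IntermediateField K R} (a b : R) (ha : Transcendental B a)
    (hab : ¬ AlgebraicIndependent B ![a, b]) : IsAlgebraic (Algebra.adjoin B {a}) b := by
  by_contra hb
  apply hab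
  rw [AlgebraicIndependent.iff_transcendental_adjoin_image (1 : Fin 2)]
  constructor
  · have hs : Subsingleton {j : Fin 2 // j ≠ 1} := by
      constructor
      rintro ⟨i, hi⟩ ⟨i', hi'⟩
      apply Subtype.ext
      change i = i'
      omega
    rw [algebraicIndependent_singleton_iff (⟨0, by decide⟩ : {j : Fin 2 // j ≠ 1})]
    exact ha
  · have h1 : (![a, b] : Fin 2 → R) '' {1}ᶜ = {a} := by
      ext y
      constructor
      · rintro ⟨i, hi, rfl⟩
        fin_cases i
        · simp
        · exact absurd rfl hi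
      · rintro rfl
        exact ⟨0, by simp, rfl⟩
    rw [h1]
    exact hb

end main

end Pool.Agent.Helper69.M
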