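import Mathlib
import Pool.Agent.Helper69.M.Inter

/-!
# Theorem M: common functions of two projections (`inter_le`), conclusion
-/

set_option autoImplicit false

namespace Pool.Agent.Helper69.M

open MvPolynomial Pool.Agent.Helper47.M

variable {k l : ℕ} {N : Fin k → ℕ} {d : Fin l → Fin k → ℕ}

variable {K E : Type} [Field K] [Field E] [Algebra K E]

/-- The place gives a contradiction. -/
theorem no_place (hcop : CopP) (h : Ty N d) (c : Tx N d → K) (halg : AlgP K c) (hdep : DepP K c)
    (x : Pt N E) (r j : Fin k) (hr : N r = l + 1) (hj : j ≠ r) {R : Type} [Field R] [Algebra K R]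
    (v : Place (Bf K x {r}) R) (u : E) (h1 : ∃ i, u * x r i = 1)
    (hg : GenPt K c r (rp x r v u)) (hn : Nice (fun e => algebraMap K R (c e)) (rp x r v u))
    (p q : MvPolynomial (Fin (N r + 1)) (Bf K x {r, j})) (hrel : IsRelPrime p q) {δ : ℕ}
    (hp : p.IsHomogeneous δ) (hq : q.IsHomogeneous δ)
    (hzp : eval₂ (resOn v (Bf_le x r j)) (fun i => v.red (u * x r i)) p = 0)
    (hzq : eval₂ (resOn v (Bf_le x r j)) (fun i => v.red (u * x r i)) q = 0) : False := by
  let _ : Algebra (Bf K x {r, j}) R := (resOn v (Bf_le x r j)).toAlgebra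
  have hρ : algebraMap (Bf K x {r, j}) R = resOn v (Bf_le x r j) := rfl
  have hz1 : ∃ i, v.red (u * x r i) = 1 := by
    obtain ⟨i, hi⟩ := h1
    refine ⟨i, ?_⟩
    rw [hi, red_of_mem v v.O.one_mem]
    exact map_one v.pi
  have hy : AlgebraicIndependent (Bf K x {r, j}) fun i : Fin (N j) => rp x r v u j i.succ :=
    indep_of_mem (resOn v (Bf_le x r j)) _ (resOn_mem x r j v u) _ (indep_j c hj _ hg)
  have hB : ∀ (I : Set R) (b : Bf K (rp x r v u) {j}), (b : R) ∈
      IntermediateField.adjoin (Bf K x {r, j}) ((Set.range fun i => v.red (u * x r i)) ∪ I) :=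
    fun I b => Bf_le_adjoin x r j v u hρ I b b.2
  have hcl : ∀ (I : Set R) (t : R), IsAlgebraic (Bf K (rp x r v u) {j}) t → IsAlgebraic
      (IntermediateField.adjoin (Bf K x {r, j}) ((Set.range fun i => v.red (u * x r i)) ∪ I))
      t := by
    intro I t ht
    exact alg_transfer (RingHom.id R) Subtype.val_injective (fun a => ⟨⟨a, hB I a⟩, rfl⟩) t ht
  have hall : ∀ a : ℕ, (∀ i, IsAlgebraic (Bf K (rp x r v u) {j}) (rp x r v u j i)) →
      N j + 1 ≤ l + a := by
    intro a ha
    refine no_common hcop (by omega) p q hrel hp hq _ hz1 hzp hzq _ hy ∅ (by simp) ?_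
    intro i
    exact hcl ∅ _ (ha i.succ)
  rcases h.dim j with hN | hN
  · have h2 := hall 0 (halg R (rp x r v u) hg.eq hn j hN (hg.one j hj))
    omega
  · by_cases ha : ∀ i, IsAlgebraic (Bf K (rp x r v u) {j}) (rp x r v u j i)
    · have h2 := hall 1 ha
      omega
    · push Not at ha
      obtain ⟨i0, hi0⟩ := ha
      have h3 := hdep R (rp x r v u) hg.eq hn j hN (hg.one j hj)
      have h4 : N j + 1 ≤ l + 1 := by
        refine no_common hcop (by omega) p q hrel hp hq _ hz1 hzp hzq _ hy {rp x r v u j i0}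
          (by simp) ?_
        intro i
        have h5 := alg_of_pair _ _ hi0 (h3 i0 i.succ)
        refine alg_transfer (RingHom.id R) Subtype.val_injective ?_ _ h5
        intro a
        have h6 : (a : R) ∈ IntermediateField.adjoin (Bf K x {r, j})
            ((Set.range fun i => v.red (u * x r i)) ∪ {rp x r v u j i0}) := by
          refine Algebra.adjoin_induction (p := fun y _ => y ∈ IntermediateField.adjoin
            (Bf K x {r, j}) ((Set.range fun i => v.red (u * x r i)) ∪ {rp x r v u j i0}))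
            ?_ ?_ ?_ ?_ a.2
          · intro y hy
            exact IntermediateField.subset_adjoin _ _ (Or.inr hy)
          · intro b
            exact hB _ b
          · intro y z _ _ hy hz
            exact add_mem hy hz
          · intro y z _ _ hy hz
            exact mul_mem hy hz
        exact ⟨⟨a, h6⟩, rfl⟩
      omega

theorem inter_of [CharZero K] (hcop : CopP) (hplace : PlaceP K E) (h : Ty N d) (c : Tx N d → K)
    (hc : AllNice K c) (halg : AlgP K c) (hdep : DepP K c) (x : Pt N E) (hred : RedP c x)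
    (hx : FullPt K c x) (r j : Fin k) (hr : N r = l + 1) (hj : j ≠ r) (φ : E)
    (h1 : φ ∈ Bf K x {r}) (h2 : φ ∈ Bf K x {j}) : φ ∈ Bf K x {r, j} := by
  by_cases hφ0 : φ = 0
  · rw [hφ0]
    exact zero_mem _
  have hch : CharZero (Bf K x {r, j}) :=
    charZero_of_injective_algebraMap (algebraMap K (Bf K x {r, j})).injective
  have hinf : Infinite (Bf K x {r, j}) := CharZero.infinite _
  obtain ⟨δ, p, q, hp, hq, hrel, hq0, he⟩ :=
    exists_forms (M := Bf K x {r, j}) (x r) (hx.one r) φ (mem_adjoin_of_mem_Bf x r j φ h2) hφ0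
  rcases Nat.eq_zero_or_pos δ with hδ | hδ
  · subst hδ
    have hp1 := totalDegree_eq_zero_iff_eq_C.mp (Nat.le_zero.mp hp.totalDegree_le)
    have hq1 := totalDegree_eq_zero_iff_eq_C.mp (Nat.le_zero.mp hq.totalDegree_le)
    rw [hp1, hq1, aeval_C, aeval_C] at he
    rw [hq1, aeval_C] at hq0
    have h3 : φ = algebraMap (Bf K x {r, j}) E (coeff 0 p) /
        algebraMap (Bf K x {r, j}) E (coeff 0 q) := by
      rw [eq_div_iff hq0]
      exact he
    rw [h3]
    exact div_mem (coeff 0 p).2 (coeff 0 q).2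
  · exfalso
    obtain ⟨e, he'⟩ := hx.tr r hr
    obtain ⟨R, i1, i2, v, u, hu, hO, hone, hz⟩ := hplace (Bf K x {r}) (N r + 1) (x r)
      ⟨e, 0, by rw [hx.one r]; exact one_ne_zero, by rw [hx.one r, div_one]; exact he'⟩
      (map (IntermediateField.inclusion (Bf_le x r j)).toRingHom p) δ hδ (hp.map _)
    rw [eval₂_map] at hz
    have hzq := both_zero v (Bf_le x r j) (x r) u hO p q hp hq φ h1 hφ0 he hz
    have hg := hred r R v u hu hO hone
    exact no_place hcop h c halg hdep x r j hr hj v u hone hg (hc r hr R _ hg).1 p q hrel hp hq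
      hz hzq

end Pool.Agent.Helper69.M
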