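import Mathlib
import Pool.Agent.Helper69.M.Main
import Pool.Agent.Helper13.M.Dep
import Pool.Agent.Helper28.M.P2
import Pool.Agent.Helper76.M.T

/-!
# Theorem M: `inter_le`
-/

set_option autoImplicit false

namespace Pool.Agent.Helper69.M

open MvPolynomial Pool.Agent.Helper47.M

variable {k l : ℕ} {N : Fin k → ℕ} {d : Fin l → Fin k → ℕ}

variable {K E : Type} [Field K] [Field E] [Algebra K E]

/-- Common functions of two projections. -/
theorem inter_le [CharZero K] (h : Ty N d) (c : Tx N d → K) (hc : AllNice K c) (x : Pt N E)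
    (hx : FullPt K c x) (r j : Fin k) (hr : N r = l + 1) (hj : j ≠ r) (φ : E)
    (h1 : φ ∈ Bf K x {r}) (h2 : φ ∈ Bf K x {j}) : φ ∈ Bf K x {r, j} := by
  refine inter_of ?_ ?_ h c hc ?_ ?_ x ?_ hx r j hr hj φ h1 h2
  · intro M Ω _ _ _ n p q hpq z hp hq i
    exact Pool.Agent.Helper13.M.dep_of_coprime p q hpq z hp hq i
  · intro B n ξ htr p δ hδ hp
    exact Pool.Agent.Helper28.M.exists_place B ξ htr p δ hδ hp
  · intro Ω _ _ x hx hn j hj h1
    exact Pool.Agent.Helper76.M.alg_of_nice h c x hx hn j hj h1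
  · intro Ω _ _ x hx hn j hj h1
    exact Pool.Agent.Helper76.M.dep_of_nice h c x hx hn j hj h1
  · intro r R _ _ v u hu hO hone
    exact Pool.Agent.Helper28.M.genPt_red c x hx r v u hu hO hone

end Pool.Agent.Helper69.M
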